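import Pool.Agent.Y661.PD.Stm2
import Pool.Agent.Y50.PD.PARA

/-!
The choice of the parameters, wave 2.
-/

set_option autoImplicit false

namespace Pool.Agent.Y570.PD.PARA2

open Pool.Agent.Y661.PD Pool.Agent.Y50.PD.PARA

/-- the size of the box -/
theorem choose_m2 (x t e : ℝ) (hx : 1 ≤ x) (hxt : x ^ (2 / 3 + 2 * e) ≤ t) :
    ∃ m : ℝ, m ≤ x ∧ m ≤ Real.sqrt t * x ^ (-e) ∧ x ^ ((1 : ℝ) / 3) ≤ m ∧
      ∀ n : ℕ, (x / m) ^ n ≤ 1 + (x ^ (1 + e) / Real.sqrt t) ^ n := by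
  have hx0 : 0 < x := by linarith
  have ht0 : 0 < t := lt_of_lt_of_le (Real.rpow_pos_of_pos hx0 _) hxt
  have hst : 0 < Real.sqrt t := Real.sqrt_pos.2 ht0
  have hsx : x ^ ((1 : ℝ) / 3 + e) ≤ Real.sqrt t := by
    have e1 : x ^ ((1 : ℝ) / 3 + e) = Real.sqrt (x ^ (2 / 3 + 2 * e)) := by
      rw [sqrt_rpow x _ hx0]
      congr 1
      ring
    rw [e1]
    exact Real.sqrt_le_sqrt hxt
  have hp : 0 < x ^ (-e) := Real.rpow_pos_of_pos hx0 _
  have hpos2 : ∀ n : ℕ, 0 ≤ (x ^ (1 + e) / Real.sqrt t) ^ n := by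
    intro n
    positivity
  rcases le_total x (Real.sqrt t * x ^ (-e)) with h | h
  · refine ⟨x, le_rfl, h, ?_, fun n => ?_⟩
    · calc x ^ ((1 : ℝ) / 3) ≤ x ^ (1 : ℝ) := Real.rpow_le_rpow_of_exponent_le hx (by norm_num)
        _ = x := Real.rpow_one x
    · rw [div_self hx0.ne', one_pow]
      linarith [hpos2 n]
  · refine ⟨Real.sqrt t * x ^ (-e), h, le_rfl, ?_, fun n => ?_⟩
    · calc x ^ ((1 : ℝ) / 3) = x ^ ((1 : ℝ) / 3 + e + -e) := by
            congr 1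
            ring
        _ = x ^ ((1 : ℝ) / 3 + e) * x ^ (-e) := Real.rpow_add hx0 _ _
        _ ≤ Real.sqrt t * x ^ (-e) := mul_le_mul_of_nonneg_right hsx hp.le
    · have e2 : x / (Real.sqrt t * x ^ (-e)) = x ^ (1 + e) / Real.sqrt t := by
        rw [Real.rpow_add hx0, Real.rpow_one, Real.rpow_neg hx0.le]
        have : x ^ e ≠ 0 := (Real.rpow_pos_of_pos hx0 _).ne'
        field_simp
      rw [e2]
      linarith [hpos2 n]

/-- the partial sums in dimension three -/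
theorem hs_half (K : ℕ) : ∑ l ∈ Finset.Icc 1 K, (l : ℝ) ^ (-(1 : ℝ) / 2) ≤ 2 * Real.sqrt K := by
  induction K with
  | zero => simp
  | succ K ih =>
    rw [Finset.sum_Icc_succ_top (by omega)]
    have h1 : ((K + 1 : ℕ) : ℝ) ^ (-(1 : ℝ) / 2) = 1 / Real.sqrt ((K + 1 : ℕ) : ℝ) := by
      have : (-(1 : ℝ) / 2) = -(1 / 2) := by norm_num
      rw [this, Real.rpow_neg (by positivity), ← Real.sqrt_eq_rpow, one_div]
    rw [h1]
    have hs : 0 < Real.sqrt ((K + 1 : ℕ) : ℝ) := Real.sqrt_pos.2 (by positivity)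
    have h2 : Real.sqrt (K : ℝ) ^ 2 = K := Real.sq_sqrt (by positivity)
    have h3 : Real.sqrt ((K + 1 : ℕ) : ℝ) ^ 2 = K + 1 := by
      rw [Real.sq_sqrt (by positivity)]
      push_cast
      rfl
    have h4 : 1 / Real.sqrt ((K + 1 : ℕ) : ℝ) ≤
        2 * Real.sqrt ((K + 1 : ℕ) : ℝ) - 2 * Real.sqrt (K : ℝ) := by
      rw [div_le_iff₀ hs]
      nlinarith [sq_nonneg (Real.sqrt ((K + 1 : ℕ) : ℝ) - Real.sqrt (K : ℝ))]
    linarith

/-- the partial sums in dimension at least four -/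
theorem hs_log (d K : ℕ) (hd : 4 ≤ d) : hs d K ≤ 1 + Real.log K := by
  have h1 : hs d K ≤ ∑ l ∈ Finset.Icc 1 K, ((l : ℝ))⁻¹ := by
    unfold hs
    refine Finset.sum_le_sum fun l hl => ?_
    have hl1 : (1 : ℝ) ≤ l := by exact_mod_cast (Finset.mem_Icc.1 hl).1
    have hd4 : (4 : ℝ) ≤ d := by exact_mod_cast hd
    calc (l : ℝ) ^ (1 - (d : ℝ) / 2) ≤ (l : ℝ) ^ (-1 : ℝ) :=
          Real.rpow_le_rpow_of_exponent_le hl1 (by linarith)
      _ = ((l : ℝ))⁻¹ := Real.rpow_neg_one _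
  have h2 := harmonic_le_one_add_log K
  rw [harmonic_eq_sum_Icc] at h2
  push_cast at h2
  exact h1.trans h2

theorem ad_facts (d : ℕ) (hd : 3 ≤ d) : 2 / 3 ≤ ad d ∧ 4 ≤ ad d * d ∧
    2 * (d : ℝ) ≤ ad d * (3 * d - 4) ∧ 4 - (d : ℝ) - ad d ≤ -(1 / 3) := by
  have hd3 : (3 : ℝ) ≤ d := by exact_mod_cast hd
  have h1 : 4 / (d : ℝ) ≤ ad d := le_max_left _ _
  have h2 : 2 * (d : ℝ) / (3 * d - 4) ≤ ad d := le_max_right _ _
  have h3 : (0 : ℝ) < 3 * d - 4 := by linarith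
  rw [div_le_iff₀ (by linarith)] at h1
  have h2' := h2
  rw [div_le_iff₀ h3] at h2
  have h4 : 2 / 3 ≤ ad d := by
    refine le_trans ?_ h2'
    rw [div_le_div_iff₀ (by norm_num) h3]
    linarith
  refine ⟨h4, h1, h2, ?_⟩
  rcases Nat.lt_or_ge d 4 with h | h
  · have : d = 3 := by omega
    subst this
    norm_num at h1 ⊢
    linarith
  · have : (4 : ℝ) ≤ d := by exact_mod_cast h
    linarith

theorem n1 (a ε d : ℝ) (hε : 0 < ε) (hd : 3 ≤ d) (h : 4 ≤ a * d) :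
    ε / 64 + (2 + (a + ε) * (-(d / 2))) ≤ -(ε / 256) := by
  nlinarith

theorem n2 (a ε d : ℝ) (hε : 0 < ε) (hε1 : ε ≤ 1) (hd : 3 ≤ d) (h : 2 / 3 ≤ a) :
    ε / 64 + (a + ε) * (1 - d / 2) ≤ -(ε / 256) := by
  nlinarith

theorem n3 (a ε d : ℝ) (hε : 0 < ε) (hd : 3 ≤ d) (h : 2 * d ≤ a * (3 * d - 4)) :
    ε / 64 + ((1 + ε / 16) * (d / 2) + (a + ε) * (1 - 3 * d / 4)) ≤ -(ε / 256) := by
  nlinarith

theorem n4 (a ε d : ℝ) (hε : 0 < ε) (hε1 : ε ≤ 1) (hd : 3 ≤ d) (h : 2 / 3 ≤ a) :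
    ε / 32 + ((1 + ε / 16) * d + (a + ε) * (1 - d / 2)) + -d ≤ -(ε / 256) := by
  nlinarith

theorem sq_aux (A S : ℝ) : (A + S) ^ 2 ≤ 2 * (A ^ 2 + S ^ 2) := by
  nlinarith [sq_nonneg (A - S)]

theorem sqrt_self (Q : ℝ) (hQ : 1 ≤ Q) : Real.sqrt Q ≤ Q := by
  rw [Real.sqrt_le_left (by linarith)]
  nlinarith

theorem sqrt_aux (Q c Z : ℝ) (hc : 1 ≤ c) (hZ : 0 ≤ Z) (h : Q ≤ c * (1 + Z ^ 2)) :
    Real.sqrt Q ≤ c * (1 + Z) := by
  rw [Real.sqrt_le_left (by positivity)]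
  refine h.trans ?_
  have e1 : (c * (1 + Z)) ^ 2 = (c * c) * (1 + Z) ^ 2 := by ring
  rw [e1]
  have e2 : (1 : ℝ) + Z ^ 2 ≤ (1 + Z) ^ 2 := by nlinarith
  have e3 : c ≤ c * c := by nlinarith
  exact mul_le_mul e3 e2 (by positivity) (by positivity)

theorem log5 : Real.log 5 ≤ 2 := by
  rw [Real.log_le_iff_le_exp (by norm_num)]
  have h9 := Real.exp_one_gt_d9
  have h10 : Real.exp 2 = Real.exp 1 * Real.exp 1 := by
    rw [← Real.exp_add]
    norm_num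
  rw [h10]
  nlinarith

theorem log4 : Real.log 4 ≤ 2 :=
  (Real.log_le_log (by norm_num) (by norm_num)).trans log5

/-- the constant -/
noncomputable def CK (d : ℕ) (ε : ℝ) : ℝ := 3 + ((d : ℝ) + 1) / (ε / 64)

theorem est (d : ℕ) (hd : 3 ≤ d) (ε : ℝ) (hε : 0 < ε) (hε1 : ε ≤ 1) (L : ℕ) (hL : 1 ≤ L) (t : ℝ)
    (h1 : (L : ℝ) ^ (ad d + ε) ≤ t) (h2 : t ≤ (L : ℝ) ^ ((5 : ℝ) / 2)) :
    ∃ K ρ : ℕ, 0 < K ∧ 1 ≤ ρ ∧ ρ ≤ L ∧
      er2 d L K t ((ρ : ℝ) ^ d) ≤ (2 + Real.sqrt (CK d ε) + (2 + 2 ^ (d + 2)) + (8 + 2 ^ (d + 4))) *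
        (L : ℝ) ^ (-(ε / 256)) ∧
      ρ * th d t ≤ Real.sqrt (2 * (d * (4 + 40 / ε))) * (L : ℝ) ^ (-(ε / 256)) ∧
      1 / (L : ℝ) ^ d ≤ (L : ℝ) ^ (-(ε / 256)) := by
  obtain ⟨a1, a2, a3, a4⟩ := ad_facts d hd
  set a : ℝ := ad d with hadef
  set x : ℝ := (L : ℝ) with hxdef
  have hx : 1 ≤ x := by
    rw [hxdef]
    exact_mod_cast hL
  have hx0 : 0 < x := by linarith
  have hd3 : (3 : ℝ) ≤ d := by exact_mod_cast hd
  -- powers of `x`
  have hmono : ∀ p r : ℝ, p ≤ r → x ^ p ≤ x ^ r := fun p r h =>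
    Real.rpow_le_rpow_of_exponent_le hx h
  have hw : ∀ p : ℝ, p ≤ -(ε / 256) → x ^ p ≤ x ^ (-(ε / 256)) := fun p h => hmono p _ h
  have hpos : ∀ p : ℝ, 0 < x ^ p := fun p => Real.rpow_pos_of_pos hx0 p
  have hone : ∀ p : ℝ, 0 ≤ p → 1 ≤ x ^ p := by
    intro p hp
    calc (1 : ℝ) = x ^ (0 : ℝ) := (Real.rpow_zero x).symm
      _ ≤ x ^ p := hmono _ _ hp
  have ht1 : 1 ≤ t := (hone _ (by linarith only [hε, a1])).trans h1
  have ht0 : 0 < t := by linarith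
  have hst : 0 < Real.sqrt t := Real.sqrt_pos.2 ht0
  obtain ⟨m, hm1, hm2, hm3, hm4⟩ := choose_m2 x t (ε / 16) hx
    ((hmono _ _ (by linarith only [hε, hε1, hd3, a1, a4])).trans h1)
  have hm1' : 1 ≤ m := (hone _ (by norm_num)).trans hm3
  obtain ⟨ρ, hρ1, hρm, hmρ⟩ := floor_half m hm1'
  have hm0 : 0 < m := by linarith
  have hρ1' : (1 : ℝ) ≤ ρ := by exact_mod_cast hρ1
  have hρ0 : (0 : ℝ) < ρ := by linarith
  have hρL : ρ ≤ L := by
    have : (ρ : ℝ) ≤ (L : ℝ) := hρm.trans hm1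
    exact_mod_cast this
  have hρx : 1 ≤ x / ρ := by
    rw [le_div_iff₀ hρ0, one_mul]
    exact hρm.trans hm1
  obtain ⟨Q, hQ⟩ : ∃ Q : ℝ, Q = (x / ρ) ^ d := ⟨_, rfl⟩
  have hQ1 : 1 ≤ Q := by
    rw [hQ]
    exact one_le_pow₀ hρx
  have hS1 : 1 ≤ Real.sqrt Q := Real.one_le_sqrt.2 hQ1
  have hSQ : Real.sqrt Q ^ 2 = Q := Real.sq_sqrt (by linarith only [hQ1])
  have hxe : 1 ≤ x ^ (ε / 64) := hone _ (by positivity)
  have hx2t : 0 < x ^ 2 / t := by positivity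
  have hW : 1 ≤ x ^ (ε / 64) * (x ^ 2 / t + Real.sqrt Q) :=
    one_le_mul_of_one_le_of_one_le hxe (by linarith only [hx2t, hS1])
  obtain ⟨K, hK0, hWK, hKW⟩ := choose_K _ hW
  have hK : (0 : ℝ) < K := by exact_mod_cast hK0
  have hρd : (0 : ℝ) < (ρ : ℝ) ^ d := by positivity
  have hρs : (ρ : ℝ) ≤ Real.sqrt t := by
    refine hρm.trans (hm2.trans ?_)
    calc Real.sqrt t * x ^ (-(ε / 16)) ≤ Real.sqrt t * 1 := by
          refine mul_le_mul_of_nonneg_left ?_ hst.le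
          calc x ^ (-(ε / 16)) ≤ x ^ (0 : ℝ) := hmono _ _ (by linarith only [hε, hε1, hd3, a1, a4])
            _ = 1 := Real.rpow_zero x
      _ = Real.sqrt t := mul_one _
  -- lower bounds for `K`
  have hKS : x ^ (ε / 64) * Real.sqrt Q ≤ K := by
    refine le_trans ?_ hWK
    exact mul_le_mul_of_nonneg_left (by linarith only [hx2t]) (hpos _).le
  have hKt : x ^ (2 + ε / 64) ≤ t * K := by
    have e4 : x ^ (ε / 64) * (x ^ 2 / t) ≤ K := by
      refine le_trans ?_ hWK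
      exact mul_le_mul_of_nonneg_left (by linarith only [hS1]) (hpos _).le
    have e5 : x ^ (2 + ε / 64) = t * (x ^ (ε / 64) * (x ^ 2 / t)) := by
      rw [Real.rpow_add hx0]
      have : x ^ (2 : ℝ) = x ^ 2 := by
        rw [← Real.rpow_natCast]
        norm_num
      rw [this]
      field_simp
    rw [e5]
    exact mul_le_mul_of_nonneg_left e4 ht0.le
  have hK2 : x ^ (ε / 32) * Q ≤ (K : ℝ) ^ 2 := by
    have e1 : x ^ (ε / 32) * Q = (x ^ (ε / 64) * Real.sqrt Q) ^ 2 := by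
      rw [mul_pow, hSQ]
      congr 1
      rw [← Real.rpow_natCast, ← Real.rpow_mul hx0.le]
      congr 1
      push_cast
      ring
    rw [e1]
    exact pow_le_pow_left₀ (by positivity) hKS 2
  have hK2ρ : x ^ (ε / 32) * x ^ d ≤ (K : ℝ) ^ 2 * (ρ : ℝ) ^ d := by
    have := mul_le_mul_of_nonneg_right hK2 hρd.le
    refine le_trans (le_of_eq ?_) this
    rw [hQ, div_pow]
    field_simp
  -- first term
  have T1 : Real.sqrt (x ^ d / ((K : ℝ) ^ 2 * (ρ : ℝ) ^ d)) ≤ x ^ (-(ε / 256)) := by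
    have e1 : x ^ d / ((K : ℝ) ^ 2 * (ρ : ℝ) ^ d) ≤ x ^ (-(ε / 32)) := by
      rw [div_le_iff₀ (by positivity), Real.rpow_neg hx0.le]
      have := hpos (ε / 32)
      rw [inv_mul_eq_div, le_div_iff₀ this]
      linarith only [hK2ρ]
    calc Real.sqrt (x ^ d / ((K : ℝ) ^ 2 * (ρ : ℝ) ^ d)) ≤ Real.sqrt (x ^ (-(ε / 32))) :=
          Real.sqrt_le_sqrt e1
      _ = x ^ (-(ε / 32) / 2) := sqrt_rpow x _ hx0
      _ ≤ x ^ (-(ε / 256)) := hw _ (by linarith only [hε, hε1, hd3, a1, a4])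
  -- second term
  have T2 : Real.sqrt (x / Real.sqrt (t * K)) ≤ x ^ (-(ε / 256)) := by
    have e6 : x ^ ((2 + ε / 64) / 2) ≤ Real.sqrt (t * K) := by
      rw [← sqrt_rpow x _ hx0]
      exact Real.sqrt_le_sqrt hKt
    have e7 : x / Real.sqrt (t * K) ≤ x ^ (-(ε / 128)) := by
      have e8 : 0 < x ^ ((2 + ε / 64) / 2) := hpos _
      calc x / Real.sqrt (t * K) ≤ x / x ^ ((2 + ε / 64) / 2) :=
            div_le_div_of_nonneg_left hx0.le e8 e6
        _ = x ^ (1 : ℝ) / x ^ ((2 + ε / 64) / 2) := by rw [Real.rpow_one]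
        _ = x ^ (1 - (2 + ε / 64) / 2) := (Real.rpow_sub hx0 _ _).symm
        _ = x ^ (-(ε / 128)) := by
          congr 1
          ring
    calc Real.sqrt (x / Real.sqrt (t * K)) ≤ Real.sqrt (x ^ (-(ε / 128))) :=
          Real.sqrt_le_sqrt e7
      _ = x ^ (-(ε / 128) / 2) := sqrt_rpow x _ hx0
      _ ≤ x ^ (-(ε / 256)) := hw _ (by linarith only [hε, hε1, hd3, a1, a4])
  -- powers of `t`
  have htp : ∀ p : ℝ, p < 0 → t ^ p ≤ x ^ ((a + ε) * p) := by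
    intro p hp
    calc t ^ p ≤ (x ^ (a + ε)) ^ p :=
          (Real.rpow_le_rpow_iff_of_neg ht0 (hpos _) hp).2 h1
      _ = x ^ ((a + ε) * p) := (Real.rpow_mul hx0.le _ _).symm
  have htd : (Real.sqrt t) ^ d = t ^ ((d : ℝ) / 2) := by
    rw [Real.sqrt_eq_rpow, ← Real.rpow_natCast, ← Real.rpow_mul ht0.le]
    congr 1
    ring
  -- third term
  have hCK : 2 ≤ CK d ε := by
    unfold CK
    have : 0 ≤ ((d : ℝ) + 1) / (ε / 64) := by positivity
    linarith only [this]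
  have T3a : x ^ d * t ^ (-((d : ℝ) / 2)) * hs d K / (K : ℝ) ^ 2 ≤ CK d ε * x ^ (-(ε / 64)) := by
    have ht2 : 0 < t ^ (-((d : ℝ) / 2)) := Real.rpow_pos_of_pos ht0 _
    rcases Nat.lt_or_ge d 4 with h4 | h4
    · have hd' : d = 3 := by omega
      have hhs : hs d K ≤ 2 * Real.sqrt K := by
        have := hs_half K
        unfold hs
        rw [hd']
        have e0 : (1 : ℝ) - ((3 : ℕ) : ℝ) / 2 = -(1 : ℝ) / 2 := by norm_num
        rw [e0]
        exact this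
      have e1 : x ^ d * t ^ (-((d : ℝ) / 2)) * hs d K / (K : ℝ) ^ 2 ≤
          x ^ d * t ^ (-((d : ℝ) / 2)) * (2 * Real.sqrt K) / (K : ℝ) ^ 2 := by
        refine div_le_div_of_nonneg_right ?_ (by positivity)
        exact mul_le_mul_of_nonneg_left hhs (by positivity)
      have e2 : Real.sqrt K / (K : ℝ) ^ 2 = (K : ℝ) ^ (-((3 : ℝ) / 2)) := by
        rw [Real.sqrt_eq_rpow, ← Real.rpow_natCast, ← Real.rpow_sub hK]
        congr 1
        norm_num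
      have e3 : x ^ d * t ^ (-((d : ℝ) / 2)) * (2 * Real.sqrt K) / (K : ℝ) ^ 2 =
          2 * x ^ (3 : ℝ) * (t * K) ^ (-((3 : ℝ) / 2)) := by
        have e4 : x ^ d = x ^ (3 : ℝ) := by
          rw [hd', ← Real.rpow_natCast]
          norm_num
        have e5 : t ^ (-((d : ℝ) / 2)) = t ^ (-((3 : ℝ) / 2)) := by
          rw [hd']
          norm_num
        rw [e4, e5, Real.mul_rpow ht0.le hK.le, ← e2]
        ring
      have e6 : (t * K) ^ (-((3 : ℝ) / 2)) ≤ (x ^ (2 + ε / 64)) ^ (-((3 : ℝ) / 2)) :=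
        (Real.rpow_le_rpow_iff_of_neg (by positivity) (hpos _) (by norm_num)).2 hKt
      have e7 : (x ^ (2 + ε / 64)) ^ (-((3 : ℝ) / 2)) = x ^ (-3 - 3 * ε / 128) := by
        rw [← Real.rpow_mul hx0.le]
        congr 1
        ring
      rw [e7] at e6
      calc x ^ d * t ^ (-((d : ℝ) / 2)) * hs d K / (K : ℝ) ^ 2
          ≤ 2 * x ^ (3 : ℝ) * (t * K) ^ (-((3 : ℝ) / 2)) := e1.trans (le_of_eq e3)
        _ ≤ 2 * x ^ (3 : ℝ) * x ^ (-3 - 3 * ε / 128) :=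
            mul_le_mul_of_nonneg_left e6 (mul_nonneg (by norm_num) (hpos _).le)
        _ = 2 * x ^ (3 + (-3 - 3 * ε / 128)) := by
            rw [mul_assoc, Real.rpow_add hx0 3]
        _ ≤ 2 * x ^ (-(ε / 64)) :=
            mul_le_mul_of_nonneg_left (hmono _ _ (by linarith only [hε, hε1, hd3, a1, a4])) (by norm_num)
        _ ≤ CK d ε * x ^ (-(ε / 64)) := mul_le_mul_of_nonneg_right hCK (hpos _).le
    · have hhs := hs_log d K h4
      -- bound of the logarithm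
      have hxx2 : x ^ 2 ≤ x ^ d := pow_le_pow_right₀ hx (by omega)
      have hKx : (K : ℝ) ≤ 4 * x ^ (d + 1) := by
        have e1 : x ^ 2 / t ≤ x ^ d := (div_le_self (by positivity) ht1).trans hxx2
        have e2 : Real.sqrt Q ≤ x ^ d := by
          have e3 : Q ≤ x ^ d := by
            rw [hQ]
            exact pow_le_pow_left₀ (by positivity) (div_le_self hx0.le hρ1') d
          have e4 : Real.sqrt Q ≤ Q := sqrt_self Q hQ1
          exact e4.trans e3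
        have e5 : x ^ (ε / 64) ≤ x := by
          calc x ^ (ε / 64) ≤ x ^ (1 : ℝ) := hmono _ _ (by linarith only [hε, hε1, hd3, a1, a4])
            _ = x := Real.rpow_one x
        calc (K : ℝ) ≤ 2 * (x ^ (ε / 64) * (x ^ 2 / t + Real.sqrt Q)) := hKW
          _ ≤ 2 * (x * (x ^ d + x ^ d)) := by
              refine mul_le_mul_of_nonneg_left ?_ (by norm_num)
              exact mul_le_mul e5 (add_le_add e1 e2) (by positivity) hx0.le
          _ = 4 * x ^ (d + 1) := by ring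
      have hlogK : Real.log K ≤ 2 + ((d : ℝ) + 1) * Real.log x := by
        calc Real.log K ≤ Real.log (4 * x ^ (d + 1)) := Real.log_le_log hK hKx
          _ = Real.log 4 + ((d : ℝ) + 1) * Real.log x := by
              rw [Real.log_mul (by norm_num) (by positivity), Real.log_pow]
              push_cast
              ring
          _ ≤ 2 + ((d : ℝ) + 1) * Real.log x := by
              linarith only [log4]
      have hlogx : Real.log x ≤ x ^ (ε / 64) / (ε / 64) :=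
        Real.log_le_rpow_div hx0.le (by positivity)
      have hhs2 : hs d K ≤ CK d ε * x ^ (ε / 64) := by
        have e1 : ((d : ℝ) + 1) * Real.log x ≤ ((d : ℝ) + 1) * (x ^ (ε / 64) / (ε / 64)) :=
          mul_le_mul_of_nonneg_left hlogx (by positivity)
        unfold CK
        have e2 : ((d : ℝ) + 1) * (x ^ (ε / 64) / (ε / 64)) =
            ((d : ℝ) + 1) / (ε / 64) * x ^ (ε / 64) := by ring
        rw [e2] at e1
        have e3 : (3 + ((d : ℝ) + 1) / (ε / 64)) * x ^ (ε / 64) =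
            3 * x ^ (ε / 64) + ((d : ℝ) + 1) / (ε / 64) * x ^ (ε / 64) := by ring
        rw [e3]
        linarith only [e1, hhs, hlogK, hxe]
      have e10 : x ^ d * t ^ (-((d : ℝ) / 2)) / (K : ℝ) ^ 2 ≤ x ^ (-(ε / 32)) := by
        have e2 : (ρ : ℝ) ^ d * t ^ (-((d : ℝ) / 2)) ≤ 1 := by
          rw [Real.rpow_neg ht0.le, ← htd, ← div_eq_mul_inv, div_le_one (by positivity)]
          exact pow_le_pow_left₀ hρ0.le hρs d
        rw [div_le_iff₀ (by positivity), Real.rpow_neg hx0.le]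
        have := hpos (ε / 32)
        rw [inv_mul_eq_div, le_div_iff₀ this]
        calc x ^ d * t ^ (-((d : ℝ) / 2)) * x ^ (ε / 32)
            = (x ^ (ε / 32) * x ^ d) * t ^ (-((d : ℝ) / 2)) := by ring
          _ ≤ ((K : ℝ) ^ 2 * (ρ : ℝ) ^ d) * t ^ (-((d : ℝ) / 2)) :=
            mul_le_mul_of_nonneg_right hK2ρ ht2.le
          _ = (K : ℝ) ^ 2 * ((ρ : ℝ) ^ d * t ^ (-((d : ℝ) / 2))) := by ring
          _ ≤ (K : ℝ) ^ 2 * 1 := mul_le_mul_of_nonneg_left e2 (by positivity)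
          _ = (K : ℝ) ^ 2 := mul_one _
      calc x ^ d * t ^ (-((d : ℝ) / 2)) * hs d K / (K : ℝ) ^ 2
          = x ^ d * t ^ (-((d : ℝ) / 2)) / (K : ℝ) ^ 2 * hs d K := by ring
        _ ≤ x ^ d * t ^ (-((d : ℝ) / 2)) / (K : ℝ) ^ 2 * (CK d ε * x ^ (ε / 64)) :=
            mul_le_mul_of_nonneg_left hhs2 (by positivity)
        _ ≤ x ^ (-(ε / 32)) * (CK d ε * x ^ (ε / 64)) := by
            refine mul_le_mul_of_nonneg_right e10 ?_
            exact mul_nonneg (by linarith only [hCK]) (hpos _).le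
        _ = CK d ε * (x ^ (-(ε / 32)) * x ^ (ε / 64)) := by ring
        _ = CK d ε * x ^ (-(ε / 64)) := by
            rw [← Real.rpow_add hx0]
            congr 2
            ring
  have T3 : Real.sqrt (x ^ d * t ^ (-((d : ℝ) / 2)) * hs d K / (K : ℝ) ^ 2) ≤
      Real.sqrt (CK d ε) * x ^ (-(ε / 256)) := by
    calc _ ≤ Real.sqrt (CK d ε * x ^ (-(ε / 64))) := Real.sqrt_le_sqrt T3a
      _ = Real.sqrt (CK d ε) * Real.sqrt (x ^ (-(ε / 64))) := Real.sqrt_mul (by linarith only [hCK]) _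
      _ = Real.sqrt (CK d ε) * x ^ (-(ε / 64) / 2) := by rw [sqrt_rpow x _ hx0]
      _ ≤ Real.sqrt (CK d ε) * x ^ (-(ε / 256)) :=
          mul_le_mul_of_nonneg_left (hw _ (by linarith only [hε, hε1, hd3, a1, a4])) (Real.sqrt_nonneg _)
  -- upper bound for `Q`
  obtain ⟨Z, hZ⟩ : ∃ Z : ℝ, Z = x ^ ((1 + ε / 16) * ((d : ℝ) / 2)) * t ^ (-((d : ℝ) / 4)) :=
    ⟨_, rfl⟩
  have hZ0 : 0 < Z := by
    rw [hZ]
    exact mul_pos (hpos _) (Real.rpow_pos_of_pos ht0 _)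
  have hZ2 : Z ^ 2 = x ^ ((1 + ε / 16) * d) * t ^ (-((d : ℝ) / 2)) := by
    rw [hZ, mul_pow, ← Real.rpow_natCast, ← Real.rpow_natCast, ← Real.rpow_mul hx0.le,
      ← Real.rpow_mul ht0.le]
    congr 2
    · push_cast
      ring
    · push_cast
      ring
  have hD : (x ^ (1 + ε / 16) / Real.sqrt t) ^ d = Z ^ 2 := by
    rw [hZ2, div_pow, div_eq_mul_inv, htd, ← Real.rpow_neg ht0.le, ← Real.rpow_natCast,
      ← Real.rpow_mul hx0.le]
  have hQup : Q ≤ 2 ^ d * (1 + Z ^ 2) := by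
    have e1 : x / ρ ≤ 2 * (x / m) := by
      rw [div_le_iff₀ hρ0]
      have e2 : 2 * (x / m) * ρ = (x / m) * (2 * ρ) := by ring
      rw [e2]
      calc x = (x / m) * m := by field_simp
        _ ≤ (x / m) * (2 * ρ) := mul_le_mul_of_nonneg_left hmρ (by positivity)
    rw [hQ]
    calc (x / ρ) ^ d ≤ (2 * (x / m)) ^ d := pow_le_pow_left₀ (by positivity) e1 d
      _ = 2 ^ d * (x / m) ^ d := mul_pow _ _ _
      _ ≤ 2 ^ d * (1 + Z ^ 2) := by
        refine mul_le_mul_of_nonneg_left ?_ (by positivity)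
        rw [← hD]
        exact hm4 d
  have h2d : (1 : ℝ) ≤ 2 ^ d := one_le_pow₀ (by norm_num)
  have hSup : Real.sqrt Q ≤ 2 ^ d * (1 + Z) := sqrt_aux Q (2 ^ d) Z h2d hZ0.le hQup
  have hx22 : x ^ (2 : ℝ) = x ^ 2 := by
    rw [← Real.rpow_natCast]
    norm_num
  -- fourth term
  have T4 : K * t ^ (1 - (d : ℝ) / 2) ≤ (2 + 2 ^ (d + 2)) * x ^ (-(ε / 256)) := by
    have ht5 : 0 < t ^ (1 - (d : ℝ) / 2) := Real.rpow_pos_of_pos ht0 _
    have e1 : (K : ℝ) ≤ 2 * (x ^ (ε / 64) * (x ^ 2 / t + 2 ^ d * (1 + Z))) := by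
      refine hKW.trans ?_
      refine mul_le_mul_of_nonneg_left ?_ (by norm_num)
      exact mul_le_mul_of_nonneg_left (by linarith only [hSup]) (hpos _).le
    have e2 : t ^ (1 - (d : ℝ) / 2) / t = t ^ (-((d : ℝ) / 2)) := by
      have : t ^ (1 - (d : ℝ) / 2) / t ^ (1 : ℝ) = t ^ (1 - (d : ℝ) / 2 - 1) :=
        (Real.rpow_sub ht0 _ _).symm
      rw [Real.rpow_one] at this
      rw [this]
      congr 1
      ring
    have e3 : Z * t ^ (1 - (d : ℝ) / 2) =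
        x ^ ((1 + ε / 16) * ((d : ℝ) / 2)) * t ^ (1 - 3 * (d : ℝ) / 4) := by
      rw [hZ, mul_assoc, ← Real.rpow_add ht0]
      congr 2
      ring
    have f1 : x ^ (ε / 64) * (x ^ (2 : ℝ) * t ^ (-((d : ℝ) / 2))) ≤ x ^ (-(ε / 256)) := by
      calc x ^ (ε / 64) * (x ^ (2 : ℝ) * t ^ (-((d : ℝ) / 2)))
          ≤ x ^ (ε / 64) * (x ^ (2 : ℝ) * x ^ ((a + ε) * (-((d : ℝ) / 2)))) := by
            refine mul_le_mul_of_nonneg_left ?_ (hpos _).le
            exact mul_le_mul_of_nonneg_left (htp _ (by linarith only [hd3])) (hpos _).le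
        _ = x ^ (ε / 64 + (2 + (a + ε) * (-((d : ℝ) / 2)))) := by
            rw [Real.rpow_add hx0, Real.rpow_add hx0]
        _ ≤ x ^ (-(ε / 256)) := hw _ (n1 a ε d hε hd3 a2)
    have f2 : x ^ (ε / 64) * t ^ (1 - (d : ℝ) / 2) ≤ x ^ (-(ε / 256)) := by
      calc x ^ (ε / 64) * t ^ (1 - (d : ℝ) / 2)
          ≤ x ^ (ε / 64) * x ^ ((a + ε) * (1 - (d : ℝ) / 2)) :=
            mul_le_mul_of_nonneg_left (htp _ (by linarith only [hd3])) (hpos _).le
        _ = x ^ (ε / 64 + (a + ε) * (1 - (d : ℝ) / 2)) := (Real.rpow_add hx0 _ _).symm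
        _ ≤ x ^ (-(ε / 256)) := hw _ (n2 a ε d hε hε1 hd3 a1)
    have f3 : x ^ (ε / 64) * (Z * t ^ (1 - (d : ℝ) / 2)) ≤ x ^ (-(ε / 256)) := by
      rw [e3]
      calc x ^ (ε / 64) * (x ^ ((1 + ε / 16) * ((d : ℝ) / 2)) * t ^ (1 - 3 * (d : ℝ) / 4))
          ≤ x ^ (ε / 64) * (x ^ ((1 + ε / 16) * ((d : ℝ) / 2)) *
            x ^ ((a + ε) * (1 - 3 * (d : ℝ) / 4))) := by
            refine mul_le_mul_of_nonneg_left ?_ (hpos _).le
            exact mul_le_mul_of_nonneg_left (htp _ (by linarith only [hd3])) (hpos _).le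
        _ = x ^ (ε / 64 + ((1 + ε / 16) * ((d : ℝ) / 2) + (a + ε) * (1 - 3 * (d : ℝ) / 4))) := by
            rw [Real.rpow_add hx0, Real.rpow_add hx0]
        _ ≤ x ^ (-(ε / 256)) := hw _ (n3 a ε d hε hd3 a3)
    have g2 : 0 ≤ (2 : ℝ) ^ (d + 1) := by positivity
    calc K * t ^ (1 - (d : ℝ) / 2)
        ≤ (2 * (x ^ (ε / 64) * (x ^ 2 / t + 2 ^ d * (1 + Z)))) * t ^ (1 - (d : ℝ) / 2) :=
          mul_le_mul_of_nonneg_right e1 ht5.le
      _ = 2 * (x ^ (ε / 64) * (x ^ (2 : ℝ) * (t ^ (1 - (d : ℝ) / 2) / t))) +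
          2 ^ (d + 1) * (x ^ (ε / 64) * t ^ (1 - (d : ℝ) / 2)) +
          2 ^ (d + 1) * (x ^ (ε / 64) * (Z * t ^ (1 - (d : ℝ) / 2))) := by
          rw [hx22]
          ring
      _ ≤ 2 * x ^ (-(ε / 256)) + 2 ^ (d + 1) * x ^ (-(ε / 256)) +
          2 ^ (d + 1) * x ^ (-(ε / 256)) := by
          rw [e2]
          exact add_le_add (add_le_add (mul_le_mul_of_nonneg_left f1 (by norm_num))
            (mul_le_mul_of_nonneg_left f2 g2)) (mul_le_mul_of_nonneg_left f3 g2)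
      _ = (2 + 2 ^ (d + 2)) * x ^ (-(ε / 256)) := by ring
  -- fifth term
  have T5 : (K : ℝ) ^ 2 * t / x ^ d ≤ (8 + 2 ^ (d + 4)) * x ^ (-(ε / 256)) := by
    have e0 : (x ^ (ε / 64)) ^ 2 = x ^ (ε / 32) := by
      rw [← Real.rpow_natCast, ← Real.rpow_mul hx0.le]
      congr 1
      push_cast
      ring
    have e1 : (K : ℝ) ^ 2 ≤ 8 * (x ^ (ε / 32) * ((x ^ 2 / t) ^ 2 + 2 ^ d * (1 + Z ^ 2))) := by
      calc (K : ℝ) ^ 2 ≤ (2 * (x ^ (ε / 64) * (x ^ 2 / t + Real.sqrt Q))) ^ 2 :=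
            pow_le_pow_left₀ hK.le hKW 2
        _ = 4 * (x ^ (ε / 32) * (x ^ 2 / t + Real.sqrt Q) ^ 2) := by
            rw [← e0]
            ring
        _ ≤ 4 * (x ^ (ε / 32) * (2 * ((x ^ 2 / t) ^ 2 + 2 ^ d * (1 + Z ^ 2)))) := by
            refine mul_le_mul_of_nonneg_left ?_ (by norm_num)
            refine mul_le_mul_of_nonneg_left ?_ (hpos _).le
            have h5 : (x ^ 2 / t + Real.sqrt Q) ^ 2 ≤ 2 * ((x ^ 2 / t) ^ 2 + Real.sqrt Q ^ 2) :=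
              sq_aux _ _
            rw [hSQ] at h5
            linarith only [h5, hQup]
        _ = _ := by ring
    have e8 : (x ^ d)⁻¹ = x ^ (-(d : ℝ)) := by
      rw [Real.rpow_neg hx0.le, Real.rpow_natCast]
    have e9 : (x ^ 2 / t) ^ 2 * t = x ^ (4 : ℝ) * t ^ (-1 : ℝ) := by
      have : x ^ (4 : ℝ) = x ^ 4 := by
        rw [← Real.rpow_natCast]
        norm_num
      rw [this, Real.rpow_neg_one]
      field_simp
    have e10 : Z ^ 2 * t = x ^ ((1 + ε / 16) * d) * t ^ (1 - (d : ℝ) / 2) := by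
      have : t ^ (-((d : ℝ) / 2)) * t ^ (1 : ℝ) = t ^ (-((d : ℝ) / 2) + 1) :=
        (Real.rpow_add ht0 _ _).symm
      rw [Real.rpow_one] at this
      rw [hZ2, mul_assoc, this]
      congr 2
      ring
    have f1 : x ^ (ε / 32) * (x ^ (4 : ℝ) * t ^ (-1 : ℝ)) * x ^ (-(d : ℝ)) ≤ x ^ (-(ε / 256)) := by
      calc x ^ (ε / 32) * (x ^ (4 : ℝ) * t ^ (-1 : ℝ)) * x ^ (-(d : ℝ))
          ≤ x ^ (ε / 32) * (x ^ (4 : ℝ) * x ^ ((a + ε) * (-1 : ℝ))) * x ^ (-(d : ℝ)) := by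
            refine mul_le_mul_of_nonneg_right ?_ (hpos _).le
            refine mul_le_mul_of_nonneg_left ?_ (hpos _).le
            exact mul_le_mul_of_nonneg_left (htp _ (by norm_num)) (hpos _).le
        _ = x ^ (ε / 32 + (4 + (a + ε) * (-1 : ℝ)) + -(d : ℝ)) := by
            rw [Real.rpow_add hx0, Real.rpow_add hx0, Real.rpow_add hx0]
        _ ≤ x ^ (-(ε / 256)) := hw _ (by linarith only [hε, hε1, hd3, a1, a4])
    have f2 : x ^ (ε / 32) * t * x ^ (-(d : ℝ)) ≤ x ^ (-(ε / 256)) := by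
      calc x ^ (ε / 32) * t * x ^ (-(d : ℝ)) ≤
              x ^ (ε / 32) * x ^ ((5 : ℝ) / 2) * x ^ (-(d : ℝ)) := by
              refine mul_le_mul_of_nonneg_right ?_ (hpos _).le
              exact mul_le_mul_of_nonneg_left h2 (hpos _).le
          _ = x ^ (ε / 32 + (5 : ℝ) / 2 + -(d : ℝ)) := by
              rw [Real.rpow_add hx0, Real.rpow_add hx0]
          _ ≤ x ^ (-(ε / 256)) := hw _ (by linarith only [hε, hε1, hd3, a1, a4])
    have f3 : x ^ (ε / 32) * (x ^ ((1 + ε / 16) * d) * t ^ (1 - (d : ℝ) / 2)) * x ^ (-(d : ℝ)) ≤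
        x ^ (-(ε / 256)) := by
      calc x ^ (ε / 32) * (x ^ ((1 + ε / 16) * d) * t ^ (1 - (d : ℝ) / 2)) * x ^ (-(d : ℝ))
          ≤ x ^ (ε / 32) * (x ^ ((1 + ε / 16) * d) * x ^ ((a + ε) * (1 - (d : ℝ) / 2))) *
            x ^ (-(d : ℝ)) := by
            refine mul_le_mul_of_nonneg_right ?_ (hpos _).le
            refine mul_le_mul_of_nonneg_left ?_ (hpos _).le
            exact mul_le_mul_of_nonneg_left (htp _ (by linarith only [hd3])) (hpos _).le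
        _ = x ^ (ε / 32 + ((1 + ε / 16) * d + (a + ε) * (1 - (d : ℝ) / 2)) + -(d : ℝ)) := by
            rw [Real.rpow_add hx0, Real.rpow_add hx0, Real.rpow_add hx0]
        _ ≤ x ^ (-(ε / 256)) := hw _ (n4 a ε d hε hε1 hd3 a1)
    have g2 : 0 ≤ 8 * (2 : ℝ) ^ d := by positivity
    calc (K : ℝ) ^ 2 * t / x ^ d
        ≤ (8 * (x ^ (ε / 32) * ((x ^ 2 / t) ^ 2 + 2 ^ d * (1 + Z ^ 2)))) * t / x ^ d := by
          refine div_le_div_of_nonneg_right ?_ (by positivity)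
          exact mul_le_mul_of_nonneg_right e1 ht0.le
      _ = 8 * (x ^ (ε / 32) * ((x ^ 2 / t) ^ 2 * t) * x ^ (-(d : ℝ))) +
          8 * 2 ^ d * (x ^ (ε / 32) * t * x ^ (-(d : ℝ))) +
          8 * 2 ^ d * (x ^ (ε / 32) * (Z ^ 2 * t) * x ^ (-(d : ℝ))) := by
          rw [← e8, div_eq_mul_inv]
          ring
      _ ≤ 8 * x ^ (-(ε / 256)) + 8 * 2 ^ d * x ^ (-(ε / 256)) +
          8 * 2 ^ d * x ^ (-(ε / 256)) := by
          rw [e9, e10]
          exact add_le_add (add_le_add (mul_le_mul_of_nonneg_left f1 (by norm_num))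
            (mul_le_mul_of_nonneg_left f2 g2)) (mul_le_mul_of_nonneg_left f3 g2)
      _ = (8 + 2 ^ (d + 4)) * x ^ (-(ε / 256)) := by ring
  refine ⟨K, ρ, hK0, hρ1, hρL, ?_, ?_, ?_⟩
  · unfold er2
    rw [← hxdef]
    calc _ ≤ x ^ (-(ε / 256)) + x ^ (-(ε / 256)) + Real.sqrt (CK d ε) * x ^ (-(ε / 256)) +
          ((2 + 2 ^ (d + 2)) * x ^ (-(ε / 256)) + (8 + 2 ^ (d + 4)) * x ^ (-(ε / 256))) :=
          add_le_add (add_le_add (add_le_add T1 T2) T3) (add_le_add T4 T5)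
      _ = _ := by ring
  · -- sixth term
    have g1 : 2 + Real.log (3 + 2 * t) ≤ (4 + 40 / ε) * x ^ (ε / 16) := by
      have g2 : Real.log (3 + 2 * t) ≤ 2 + (5 / 2) * Real.log x := by
        have g3 : 3 + 2 * t ≤ 5 * x ^ ((5 : ℝ) / 2) := by linarith only [h2, ht1]
        calc Real.log (3 + 2 * t) ≤ Real.log (5 * x ^ ((5 : ℝ) / 2)) :=
              Real.log_le_log (by linarith only [ht1]) g3
          _ = Real.log 5 + (5 / 2) * Real.log x := by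
              rw [Real.log_mul (by norm_num) (hpos _).ne', Real.log_rpow hx0]
          _ ≤ 2 + (5 / 2) * Real.log x := by
              linarith only [log5]
      have g4 : Real.log x ≤ x ^ (ε / 16) / (ε / 16) :=
        Real.log_le_rpow_div hx0.le (by positivity)
      have g5 : 1 ≤ x ^ (ε / 16) := hone _ (by positivity)
      have g6 : (5 / 2) * (x ^ (ε / 16) / (ε / 16)) = 40 / ε * x ^ (ε / 16) := by
        field_simp
        ring
      calc 2 + Real.log (3 + 2 * t) ≤ 4 + (5 / 2) * Real.log x := by linarith only [g2]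
        _ ≤ 4 * x ^ (ε / 16) + (5 / 2) * (x ^ (ε / 16) / (ε / 16)) := by
          linarith only [g4, g5]
        _ = _ := by rw [g6]; ring
    have g7 : th d t ≤ Real.sqrt (2 * (d * (4 + 40 / ε))) * x ^ (ε / 32) / Real.sqrt t := by
      unfold th
      rw [Real.sqrt_div' _ ht0.le]
      refine div_le_div_of_nonneg_right ?_ hst.le
      have g8 : x ^ (ε / 32) = Real.sqrt (x ^ (ε / 16)) := by
        rw [sqrt_rpow x _ hx0]
        congr 1
        ring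
      rw [g8, ← Real.sqrt_mul (by positivity)]
      refine Real.sqrt_le_sqrt ?_
      have g9 := mul_le_mul_of_nonneg_left g1 (show (0 : ℝ) ≤ 2 * d by positivity)
      linarith only [g9]
    have g10 : (0 : ℝ) ≤ Real.sqrt (2 * (d * (4 + 40 / ε))) := Real.sqrt_nonneg _
    calc (ρ : ℝ) * th d t ≤ (Real.sqrt t * x ^ (-(ε / 16))) *
          (Real.sqrt (2 * (d * (4 + 40 / ε))) * x ^ (ε / 32) / Real.sqrt t) := by
          refine mul_le_mul (hρm.trans hm2) g7 (Real.sqrt_nonneg _) ?_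
          exact mul_nonneg hst.le (hpos _).le
      _ = Real.sqrt (2 * (d * (4 + 40 / ε))) * (x ^ (-(ε / 16)) * x ^ (ε / 32)) := by
          field_simp
      _ = Real.sqrt (2 * (d * (4 + 40 / ε))) * x ^ (-(ε / 16) + ε / 32) := by
          rw [Real.rpow_add hx0]
      _ ≤ Real.sqrt (2 * (d * (4 + 40 / ε))) * x ^ (-(ε / 256)) :=
          mul_le_mul_of_nonneg_left (hw _ (by linarith only [hε, hε1, hd3, a1, a4])) g10
  · -- last term
    have e8 : 1 / x ^ d = x ^ (-(d : ℝ)) := by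
      rw [Real.rpow_neg hx0.le, Real.rpow_natCast, one_div]
    rw [e8]
    exact hw _ (by linarith only [hε, hε1, hd3, a1, a4])

theorem main : S_PARA2 := by
  intro d hd ε η hε hη
  set ε' := min ε 1 with hε'
  have h0 : 0 < ε' := lt_min hε one_pos
  set C1 : ℝ := 2 + Real.sqrt (CK d ε') + (2 + 2 ^ (d + 2)) + (8 + 2 ^ (d + 4)) with hC1
  set C2 : ℝ := Real.sqrt (2 * (d * (4 + 40 / ε'))) with hC2
  have p1 : (0 : ℝ) ≤ C1 := by positivity
  have p2 : (0 : ℝ) ≤ C2 := Real.sqrt_nonneg _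
  have hlim : Filter.Tendsto (fun L : ℕ => (C1 + C2 + 1) * (L : ℝ) ^ (-(ε' / 256))) Filter.atTop
      (nhds 0) := by
    have h1 := (tendsto_rpow_neg_atTop (show 0 < ε' / 256 by positivity)).comp
      tendsto_natCast_atTop_atTop
    simpa using h1.const_mul (C1 + C2 + 1)
  obtain ⟨L₀, hL₀⟩ := Filter.eventually_atTop.1 (hlim.eventually_le_const hη)
  refine ⟨max L₀ 1, fun L hL t h1 h2 => ?_⟩
  have hL1 : 1 ≤ L := (le_max_right _ _).trans hL
  have hx : (1 : ℝ) ≤ L := by exact_mod_cast hL1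
  have hb := hL₀ L ((le_max_left _ _).trans hL)
  have h3 : (L : ℝ) ^ (ad d + ε') ≤ t := by
    refine le_trans (Real.rpow_le_rpow_of_exponent_le hx ?_) h1
    linarith [min_le_left ε 1]
  obtain ⟨K, ρ, hK, hρ, hρL, e1, e2, e3⟩ := est d hd ε' h0 (min_le_right _ _) L hL1 t h3 h2
  have hxp : 0 < (L : ℝ) ^ (-(ε' / 256)) := Real.rpow_pos_of_pos (by linarith) _
  rw [← hC1] at e1
  rw [← hC2] at e2
  have hb' : C1 * (L : ℝ) ^ (-(ε' / 256)) + C2 * (L : ℝ) ^ (-(ε' / 256)) +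
      (L : ℝ) ^ (-(ε' / 256)) ≤ η := by
    refine le_trans (le_of_eq ?_) hb
    ring
  have q1 : 0 ≤ C1 * (L : ℝ) ^ (-(ε' / 256)) := mul_nonneg p1 hxp.le
  have q2 : 0 ≤ C2 * (L : ℝ) ^ (-(ε' / 256)) := mul_nonneg p2 hxp.le
  exact ⟨K, ρ, hK, hρ, hρL, by linarith, by linarith, by linarith⟩

end Pool.Agent.Y570.PD.PARA2
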